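import Pool.Agent.H90.RG.Targets
import Pool.Agent.H48.RG.Targets
import Pool.Agent.H14.RG.Targets
import Pool.Agent.H86.RG.Targets

/-! Regularity of stationary harmonic maps for small energy (MP_2697e3_an): the glue of the parts
A, D, E and of the monotonicity. -/

set_option autoImplicit false

namespace Pool.Agent.H3.RG

open MeasureTheory Metric Set Filter Topology Pool.Agent.H87.SN
open Pool.Agent.H14.RG (row IsClosedSubmanifold)
open scoped ContDiff RealInnerProductSpace ENNReal

noncomputable section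

/-- EPR: regularity for small energy. -/
def T_EPR : Prop := ∀ (m k : ℕ) (N : Set (E m)) (A : E m → E m →L[ℝ] E m →L[ℝ] E m),
    IsClosedSubmanifold k N → IsSFF N A → ∀ d : ℕ, ∃ ε : ℝ, 0 < ε ∧
      Pool.Agent.H90.RG.EpsReg (d + 2) m N A ε

variable {n m : ℕ}

theorem norm_bv (i : Fin n) : ‖(bv i : E n)‖ = 1 := by simp [bv]

theorem sum_bv (v : E n) : v = ∑ i, v i • (bv i : E n) := by
  ext j
  simp [bv, Finset.sum_apply, Pi.single_apply]

theorem inner_bv (v : E n) (i : Fin n) : ⟪v, (bv i : E n)⟫ = v i := by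
  simp [bv, PiLp.inner_apply]

theorem inner_row (L : E n →L[ℝ] E m) (j : Fin m) (v : E n) : ⟪row L j, v⟫ = (L v) j := by
  conv_rhs => rw [sum_bv v]
  simp only [map_sum, map_smul, WithLp.ofLp_sum, WithLp.ofLp_smul, Finset.sum_apply, Pi.smul_apply,
    smul_eq_mul, row, PiLp.inner_apply]
  refine Finset.sum_congr rfl (fun i _ => ?_)
  simp

theorem row_apply (L : E n →L[ℝ] E m) (j : Fin m) (i : Fin n) : (row L j) i = (L (bv i)) j := rfl

theorem op_le (L : E n →L[ℝ] E m) : ‖L‖ ≤ ∑ k, ‖row L k‖ := by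
  refine L.opNorm_le_bound (Finset.sum_nonneg fun _ _ => norm_nonneg _) (fun v => ?_)
  rw [sum_bv (L v), Finset.sum_mul]
  refine (norm_sum_le _ _).trans (Finset.sum_le_sum fun k _ => ?_)
  rw [norm_smul, norm_bv, mul_one, ← inner_row]
  exact norm_inner_le_norm _ _

theorem nsq_row (L : E n →L[ℝ] E m) : ∑ k, ‖row L k‖ ^ 2 = nsq L := by
  simp only [nsq, EuclideanSpace.norm_sq_eq, row_apply]
  rw [Finset.sum_comm]

/-- `row` as a continuous linear map -/
def rowL (j : Fin m) : (E n →L[ℝ] E m) →L[ℝ] E n :=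
  LinearMap.toContinuousLinearMap
    { toFun := fun L => row L j
      map_add' := fun a b => by ext i; simp [row_apply]
      map_smul' := fun c a => by ext i; simp [row_apply] }

theorem rowL_apply (L : E n →L[ℝ] E m) (j : Fin m) : rowL j L = row L j := rfl

theorem memLp_row {G : E n → E n →L[ℝ] E m} {U : Set (E n)} (hG : MemLp G 2 (volume.restrict U))
    (j : Fin m) : MemLp (fun x => row (G x) j) 2 (volume.restrict U) :=
  (rowL j).comp_memLp' hG

/-- product of a test function and a function integrable on the ball -/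
theorem integrable_smul {F : Type*} [NormedAddCommGroup F] [NormedSpace ℝ F] {U : Set (E n)}
    {c : E n → ℝ} (hc : Continuous c) (hcs : HasCompactSupport c) (hcU : tsupport c ⊆ U)
    {g : E n → F} (hg : IntegrableOn g U) :
    Integrable (fun x => c x • g x) := by
  rw [← integrableOn_iff_integrable_of_support_subset (s := U)]
  · obtain ⟨B, hB⟩ := hcs.exists_bound_of_continuous hc
    exact Integrable.bdd_smul hg B hc.aestronglyMeasurable (Eventually.of_forall hB)
  · intro x hx
    refine hcU (subset_tsupport _ ?_)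
    intro h
    exact hx (by simp [h])

/-! ### The components -/

/-- the map data on the ball of radius two -/
structure Dat {m : ℕ} (C : ℝ) (N : Set (E m)) (A : E m → E m →L[ℝ] E m →L[ℝ] E m)
    (u : E n → E m) (G : E n → E n →L[ℝ] E m) (Om : Fin m → Fin m → E n → E n) : Prop where
  sh : StationaryHarmonic N A u G
  cpt : IsCompact N
  c0 : 0 ≤ C
  bd : ∀ q ∈ N, ‖A q‖ ≤ C
  ms : ∀ i j, AEStronglyMeasurable (Om i j) (volume.restrict (ball (0 : E n) 2))
  anti : ∀ i j x, Om j i x = -Om i j x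
  le : ∀ i j x, ‖Om i j x‖ ≤ C * ‖G x‖
  ae : ∀ᵐ x ∂(volume.restrict (ball (0 : E n) 2)), ∀ i,
        (∑ α, A (u x) (G x (bv α)) (G x (bv α))) i = ∑ j, ⟪Om i j x, row (G x) j⟫

/-- the right side -/
def ff {m : ℕ} (A : E m → E m →L[ℝ] E m →L[ℝ] E m) (u : E n → E m) (G : E n → E n →L[ℝ] E m)
    (x : E n) : E m := ∑ α, A (u x) (G x (bv α)) (G x (bv α))

section
variable {C : ℝ} {N : Set (E m)} {A : E m → E m →L[ℝ] E m →L[ℝ] E m}
    {u : E n → E m} {G : E n → E n →L[ℝ] E m} {Om : Fin m → Fin m → E n → E n}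

theorem Dat.memG (h : Dat C N A u G Om) : MemLp G 2 (volume.restrict (ball (0 : E n) 2)) :=
  h.sh.w12.memLp_deriv

theorem Dat.intnsq (h : Dat C N A u G Om) : IntegrableOn (fun x => nsq (G x)) (ball (0 : E n) 2) := by
  have : ∀ x, nsq (G x) = ∑ k, ‖row (G x) k‖ ^ 2 := fun x => (nsq_row _).symm
  simp only [this]
  exact integrable_finsetSum _ fun k _ =>
    MemLp.integrable_norm_pow (p := 2) (by exact_mod_cast memLp_row h.memG k) (by norm_num)

theorem Dat.ffle (h : Dat C N A u G Om) :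
    ∀ᵐ x ∂(volume.restrict (ball (0 : E n) 2)), ‖ff A u G x‖ ≤ C * nsq (G x) := by
  filter_upwards [h.sh.mem] with x hx
  unfold ff nsq
  rw [Finset.mul_sum]
  refine (norm_sum_le _ _).trans (Finset.sum_le_sum fun α _ => ?_)
  calc ‖A (u x) (G x (bv α)) (G x (bv α))‖ ≤ ‖A (u x)‖ * ‖G x (bv α)‖ * ‖G x (bv α)‖ :=
        (A (u x)).le_opNorm₂ _ _
    _ ≤ C * ‖G x (bv α)‖ * ‖G x (bv α)‖ := by
        gcongr
        exact h.bd _ hx
    _ = _ := by ring

theorem Dat.ffms (h : Dat C N A u G Om) :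
    AEStronglyMeasurable (ff A u G) (volume.restrict (ball (0 : E n) 2)) := by
  have h1 : AEStronglyMeasurable (fun x => ∑ i, (∑ j, ⟪Om i j x, row (G x) j⟫) • (bv i : E m))
      (volume.restrict (ball (0 : E n) 2)) := by
    refine Finset.aestronglyMeasurable_fun_sum _ fun i _ => ?_
    refine AEStronglyMeasurable.smul_const ?_ _
    refine Finset.aestronglyMeasurable_fun_sum _ fun j _ => ?_
    exact (h.ms i j).inner (memLp_row h.memG j).1
  refine h1.congr ?_
  filter_upwards [h.ae] with x hx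
  rw [sum_bv (ff A u G x)]
  refine Finset.sum_congr rfl fun i _ => ?_
  rw [← hx i]
  rfl

theorem Dat.ffint (h : Dat C N A u G Om) : IntegrableOn (ff A u G) (ball (0 : E n) 2) := by
  refine Integrable.mono' (h.intnsq.const_mul C) h.ffms h.ffle

theorem Dat.uint (h : Dat C N A u G Om) : IntegrableOn u (ball (0 : E n) 2) := by
  have : IsFiniteMeasure (volume.restrict (ball (0 : E n) 2)) :=
    ⟨by rw [Measure.restrict_apply_univ]; exact measure_ball_lt_top⟩
  exact h.sh.w12.memLp.integrable one_le_two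

theorem Dat.Gint (h : Dat C N A u G Om) : IntegrableOn G (ball (0 : E n) 2) := by
  have : IsFiniteMeasure (volume.restrict (ball (0 : E n) 2)) :=
    ⟨by rw [Measure.restrict_apply_univ]; exact measure_ball_lt_top⟩
  exact h.memG.integrable one_le_two

theorem test_fderiv {φ : E n → ℝ} (hφ : ContDiff ℝ ∞ φ) (hc : HasCompactSupport φ)
    {U : Set (E n)} (hU : tsupport φ ⊆ U) (v : E n) : Continuous (fun x => fderiv ℝ φ x v) ∧
      HasCompactSupport (fun x => fderiv ℝ φ x v) ∧ tsupport (fun x => fderiv ℝ φ x v) ⊆ U := by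
  refine ⟨(hφ.continuous_fderiv (by simp)).clm_apply continuous_const, ?_, ?_⟩
  · exact (hc.fderiv (𝕜 := ℝ)).comp_left (g := fun L : E n →L[ℝ] ℝ => L v) rfl
  · refine Subset.trans ?_ hU
    refine closure_minimal ?_ (isClosed_tsupport _)
    intro x hx
    refine tsupport_fderiv_subset ℝ (subset_tsupport _ ?_)
    intro h0
    exact hx (by simp [h0])

/-- the component of the weak gradient -/
theorem Dat.comp (h : Dat C N A u G Om) (k : Fin m) (φ : E n → ℝ) (hφ : IsTest φ) (v : E n) :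
    ∫ x, fderiv ℝ φ x v * u x k = - ∫ x, φ x * (G x v) k := by
  obtain ⟨c1, c2, c3⟩ := test_fderiv hφ.1 hφ.2.1 hφ.2.2 v
  have i1 : Integrable (fun x => fderiv ℝ φ x v • u x) :=
    integrable_smul c1 c2 c3 h.uint
  have i2 : Integrable (fun x => φ x • G x v) := by
    refine integrable_smul hφ.1.continuous hφ.2.1 hφ.2.2 ?_
    exact (ContinuousLinearMap.apply ℝ (E m) v).integrable_comp h.Gint
  have e := congrArg (fun w : E m => EuclideanSpace.proj (𝕜 := ℝ) k w) (h.sh.w12.weak φ hφ v)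
  simp only [map_neg] at e
  rw [← ContinuousLinearMap.integral_comp_comm _ i1,
    ← ContinuousLinearMap.integral_comp_comm _ i2] at e
  simpa using e

/-- the component of the equation -/
theorem Dat.compeq (h : Dat C N A u G Om) (k : Fin m) (φ : E n → ℝ) (hφ : IsTest φ) :
    ∫ x, ∑ i, fderiv ℝ φ x (bv i) * (G x (bv i)) k = ∫ x, φ x * ff A u G x k := by
  have i1 : Integrable (fun x => ∑ i : Fin n, (fderiv ℝ φ x (bv i)) • G x (bv i)) := by
    refine integrable_finsetSum _ fun i _ => ?_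
    obtain ⟨c1, c2, c3⟩ := test_fderiv hφ.1 hφ.2.1 hφ.2.2 (bv i : E n)
    exact integrable_smul c1 c2 c3
      ((ContinuousLinearMap.apply ℝ (E m) (bv i)).integrable_comp h.Gint)
  have i2 : Integrable (fun x => φ x • ff A u G x) :=
    integrable_smul hφ.1.continuous hφ.2.1 hφ.2.2 h.ffint
  have e : EuclideanSpace.proj (𝕜 := ℝ) k (∫ x, ∑ i : Fin n, (fderiv ℝ φ x (bv i)) • G x (bv i)) =
      EuclideanSpace.proj (𝕜 := ℝ) k (∫ x, φ x • ∑ i : Fin n, A (u x) (G x (bv i)) (G x (bv i))) :=
    congrArg _ (h.sh.harmonic φ hφ)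
  rw [← ContinuousLinearMap.integral_comp_comm _ i1] at e
  change _ = EuclideanSpace.proj (𝕜 := ℝ) k (∫ x, φ x • ff A u G x) at e
  rw [← ContinuousLinearMap.integral_comp_comm _ i2] at e
  simpa using e

end

/-! ### The structures of the parts D and E -/

section
variable {C : ℝ} {N : Set (E m)} {A : E m → E m →L[ℝ] E m →L[ℝ] E m}
    {u : E n → E m} {G : E n → E n →L[ℝ] E m} {Om : Fin m → Fin m → E n → E n}

theorem Dat.wg (h : Dat C N A u G Om) (k : Fin m) (φ : E n → ℝ) (hφ : IsTest φ) (v : E n) :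
    ∫ x, fderiv ℝ φ x v * u x k = - ∫ x, φ x * ⟪row (G x) k, v⟫ := by
  simp only [inner_row]
  exact h.comp k φ hφ v

theorem Dat.wb (h : Dat C N A u G Om) (k : Fin m) :
    Pool.Agent.H48.RG.WB (ball (0 : E n) 2) (fun x => u x k) (fun x => row (G x) k) where
  ms := (EuclideanSpace.proj (𝕜 := ℝ) k).continuous.comp_aestronglyMeasurable
    h.sh.w12.memLp.1
  bd := by
    obtain ⟨B, hB⟩ := h.cpt.isBounded.exists_norm_le
    refine ⟨B, ?_⟩
    filter_upwards [h.sh.mem] with x hx
    exact (PiLp.norm_apply_le (u x) k).trans (hB _ hx)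
  d2 := memLp_row h.memG k
  wg := fun φ hφ v => h.wg k φ hφ v

theorem Dat.sys (h : Dat C N A u G Om) :
    Pool.Agent.H48.RG.Sys C (ball (0 : E n) 2) (fun k x => u x k) (fun k x => row (G x) k) Om where
  wb := h.wb
  ms := h.ms
  anti := fun i j x => h.anti j i x
  le := fun i j => Eventually.of_forall fun x => (h.le i j x).trans
    (mul_le_mul_of_nonneg_left (op_le _) h.c0)
  eq := by
    intro i φ hφ
    have e1 := h.compeq i φ hφ
    have e2 : ∀ x, fderiv ℝ φ x (row (G x) i) = ∑ α, fderiv ℝ φ x (bv α) * (G x (bv α)) i := by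
      intro x
      conv_lhs => rw [sum_bv (row (G x) i)]
      simp only [map_sum, map_smul, smul_eq_mul, row_apply]
      exact Finset.sum_congr rfl fun α _ => mul_comm _ _
    simp only [e2]
    rw [e1]
    have hae := ae_imp_of_ae_restrict h.ae
    refine integral_congr_ae ?_
    filter_upwards [hae] with x hx
    by_cases hxU : x ∈ ball (0 : E n) 2
    · congr 1
      exact hx hxU i
    · have : φ x = 0 := image_eq_zero_of_notMem_tsupport fun hc => hxU (hφ.2.2 hc)
      rw [this, zero_mul, zero_mul]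

theorem Dat.sol (h : Dat C N A u G Om) {U : Set (E n)} (hU : U ⊆ ball (0 : E n) 2) :
    Pool.Agent.H86.RG.Sol U u (fun k x => row (G x) k) (ff A u G) where
  iu := fun a => ((EuclideanSpace.proj (𝕜 := ℝ) a).integrable_comp h.uint).mono_measure
    (Measure.restrict_mono hU le_rfl)
  iD := fun a => (memLp_row h.memG a).mono_measure (Measure.restrict_mono hU le_rfl)
  iF := fun a => ((EuclideanSpace.proj (𝕜 := ℝ) a).integrable_comp h.ffint).mono_measure
    (Measure.restrict_mono hU le_rfl)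
  gr := by
    intro a ψ hψ i
    have e := h.comp a ψ ⟨hψ.1, hψ.2.1, hψ.2.2.trans hU⟩ (bv i)
    simp only [Pool.Agent.H86.RG.dd, row_apply]
    simp only [mul_comm _ (ψ _)]
    rw [← e]
    exact integral_congr_ae (Eventually.of_forall fun x => mul_comm _ _)
  eq := by
    intro a ψ hψ
    exact h.compeq a ψ ⟨hψ.1, hψ.2.1, hψ.2.2.trans hU⟩

theorem Dat.locF (h : Dat C N A u G Om) {k : ℕ} (hS : Pool.Agent.H14.RG.T_SFS)
    (hT : Pool.Agent.H14.RG.T_TNG) (hN : IsClosedSubmanifold k N) (hA : IsSFF N A)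
    {U : Set (E n)} (hU : U ⊆ ball (0 : E n) 2) :
    Pool.Agent.H86.RG.LocF N U u (fun k x => row (G x) k) (ff A u G) := by
  intro p hp
  obtain ⟨V, B, hV, hpV, hB, hAB⟩ := hS m k N A hN hA p hp
  refine ⟨V, fun a b c q => (B q (bv b) (bv c)) a, hV, hpV, ?_, ?_⟩
  · intro a b c
    refine ContDiff.contDiffOn ?_
    exact (EuclideanSpace.proj (𝕜 := ℝ) a).contDiff.comp
      ((hB.clm_apply contDiff_const).clm_apply contDiff_const)
  · have hmem := ae_mono (Measure.restrict_mono hU le_rfl) h.sh.mem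
    have htan := ae_mono (Measure.restrict_mono hU le_rfl) (hT n m k N u G hN h.sh.w12 h.sh.mem)
    filter_upwards [hmem, htan] with x hx ht hxV a
    have e1 : ∀ i : Fin n, A (u x) (G x (bv i)) (G x (bv i)) =
        ∑ b, ∑ c, ((row (G x) b i) * (row (G x) c i)) • B (u x) (bv b) (bv c) := by
      intro i
      rw [hAB (u x) hx hxV _ (ht (bv i))]
      conv_lhs => rw [sum_bv (G x (bv i))]
      simp only [map_sum, sum_apply, map_smul, smul_apply,
        Finset.smul_sum, smul_smul, row_apply]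
      rw [Finset.sum_comm]
      refine Finset.sum_congr rfl fun b _ => Finset.sum_congr rfl fun c _ => ?_
      rw [mul_comm]
    unfold ff
    simp only [e1]
    simp only [WithLp.ofLp_sum, WithLp.ofLp_smul, Finset.sum_apply, Pi.smul_apply, smul_eq_mul]
    refine Finset.sum_congr rfl fun i _ => Finset.sum_congr rfl fun b _ =>
      Finset.sum_congr rfl fun c _ => ?_
    ring

end

theorem pf_EPR (hOMG : Pool.Agent.H14.RG.T_OMG) (hTNG : Pool.Agent.H14.RG.T_TNG)
    (hSFS : Pool.Agent.H14.RG.T_SFS) (hSRS : Pool.Agent.H48.RG.T_SRS)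
    (hITE : Pool.Agent.H48.RG.T_ITE) (hST1 : T_ST1) (hMNS : Pool.Agent.H90.RG.T_MNS)
    (hE : Pool.Agent.H86.RG.T_E) : T_EPR := by
  intro m k N A hN hA d
  obtain ⟨C, hC, hAC, hOm⟩ := hOMG m k N A hN hA
  obtain ⟨ε, C₁, hε, hC₁, hI⟩ := hITE (d + 2) m C (by omega) hC
  refine ⟨ε, hε, ?_⟩
  intro u G hsh hen
  obtain ⟨Om, o1, o2, o3, o4⟩ := hOm (d + 2) u G hsh.w12 hsh.mem
  have D : Dat C N A u G Om := ⟨hsh, hN.compact, hC, hAC, o1, o2, o3, o4⟩
  have hb1 : ball (0 : E (d + 2)) 1 ⊆ ball 0 2 := ball_subset_ball (by norm_num)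
  have hsys := hSRS (d + 2) m C 0 0 2 1 _ _ _ D.sys hb1
  have hst : Stat1 G := hST1 (d + 2) m G D.memG (fun X hX => hsh.stationary X hX)
  -- small energy on all balls
  have hsmall : ∀ (y : E (d + 2)) (s : ℝ), 0 < s → ball y s ⊆ ball (0 : E (d + 2)) 1 →
      ∑ k, ∫ x in ball y s, ‖row (G x) k‖ ^ 2 ≤ ε * (s ^ (d + 2) / s ^ 2) := by
    intro y s hs hys
    have h1 := hMNS d m G D.memG hst 0 1 one_pos (by rw [mul_one]) y s hs hys
    rw [one_pow, one_mul, mul_one] at h1
    have h2 : ∑ k, ∫ x in ball y s, ‖row (G x) k‖ ^ 2 = ∫ x in ball y s, nsq (G x) := by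
      rw [← integral_finsetSum]
      · simp only [nsq_row]
      · intro k _
        exact MemLp.integrable_norm_pow (p := 2) (by
          exact_mod_cast (memLp_row D.memG k).mono_measure
            (Measure.restrict_mono (hys.trans hb1) le_rfl)) (by norm_num)
    rw [h2]
    have h3 : s ^ (d + 2) / s ^ 2 = s ^ d := by
      rw [pow_add]
      field_simp
    rw [h3]
    refine h1.trans ?_
    rw [mul_comm]
    exact mul_le_mul_of_nonneg_right hen.le (by positivity)
  have hdec := hI 0 1 _ _ Om one_pos hsys hsmall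
  -- the hypotheses of part E
  have hb2 : ball (0 : E (d + 2)) (2 * (1 / 2)) ⊆ ball 0 2 := ball_subset_ball (by norm_num)
  have hfb : ∀ᵐ x ∂(volume.restrict (ball (0 : E (d + 2)) (2 * (1 / 2)))),
      ‖ff A u G x‖ ≤ C * ∑ a, ‖row (G x) a‖ ^ 2 := by
    filter_upwards [ae_mono (Measure.restrict_mono hb2 le_rfl) D.ffle] with x hx
    rw [nsq_row]
    exact hx
  have hmor : ∀ x ∈ ball (0 : E (d + 2)) (1 / 2), ∀ r : ℝ, 0 < r → r ≤ 1 / 2 →
      ∫ y in ball x r, ∑ a, ‖row (G y) a‖ ≤ (m * C₁) * r ^ (((d + 2 : ℕ) : ℝ) - 1 + 3 / 4) := by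
    intro x hx r hr hr'
    have hxr : ball x r ⊆ ball (0 : E (d + 2)) 2 := by
      refine ball_subset_ball' ?_
      rw [mem_ball] at hx
      linarith
    rw [integral_finsetSum]
    · have h1 : ∀ a ∈ (Finset.univ : Finset (Fin m)), ∫ y in ball x r, ‖row (G y) a‖ ≤
          C₁ * r ^ (((d + 2 : ℕ) : ℝ) - 1 + 3 / 4) := by
        intro a _
        have := hdec a x (by simpa using hx) r hr (by simpa using hr')
        refine this.trans (le_of_eq ?_)
        rw [div_one, mul_assoc, ← Real.rpow_natCast r (d + 2 - 1), ← Real.rpow_add hr]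
        congr 2
        rw [Nat.cast_sub (by omega)]
        push_cast
        ring
      refine (Finset.sum_le_sum h1).trans (le_of_eq ?_)
      rw [Finset.sum_const, Finset.card_univ, Fintype.card_fin, nsmul_eq_mul, mul_assoc]
    · intro a _
      have h0 : Integrable (fun y => row (G y) a) (volume.restrict (ball (0 : E (d + 2)) 2)) :=
        (rowL a).integrable_comp D.Gint
      exact (h0.mono_measure (Measure.restrict_mono hxr le_rfl)).norm
  obtain ⟨u', r, hr, hr', hu', hsm⟩ := hE (d + 2) m N u (fun k x => row (G x) k) (ff A u G) 0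
    (1 / 2) C (m * C₁) (by omega) (by norm_num) hN.compact.isClosed (D.sol hb2)
    (ae_mono (Measure.restrict_mono hb2 le_rfl) hsh.mem) (D.locF hSFS hTNG hN hA hb2) hfb hmor
  exact ⟨r, hr, ball_subset_ball (by linarith), u', hsm, hu'⟩

end

end Pool.Agent.H3.RG
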