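import Pool.Agent.H3.RG.EPR
import Pool.Agent.H90.RG.Targets2

/-! Regularity for small energy in the form of H90/RG/Targets2 (MP_2697e3_an). -/

set_option autoImplicit false

namespace Pool.Agent.H3.RG

open Pool.Agent.H87.SN

theorem pf_EPS (hOMG : Pool.Agent.H14.RG.T_OMG) (hTNG : Pool.Agent.H14.RG.T_TNG)
    (hSFS : Pool.Agent.H14.RG.T_SFS) (hSRS : Pool.Agent.H48.RG.T_SRS)
    (hITE : Pool.Agent.H48.RG.T_ITE) (hST1 : T_ST1) (hMNS : Pool.Agent.H90.RG.T_MNS)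
    (hE : Pool.Agent.H86.RG.T_E) : Pool.Agent.H90.RG.T_EPS :=
  fun d m k N A hN hA => pf_EPR hOMG hTNG hSFS hSRS hITE hST1 hMNS hE m k N A hN hA d

end Pool.Agent.H3.RG
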