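import Pool.Agent.H14.RG.CHN
import Pool.Agent.H45.RG.RIN
import Pool.Agent.H45.RG.TAE
import Pool.Agent.H45.RG.TPR
import Pool.Agent.H82.RG.TAK
import Pool.Agent.H95.RG.A_CUT
import Pool.Agent.H66.RG.SFS
import Pool.Agent.H75.RG.ZER
import Pool.Agent.H36.RG.TNG
import Pool.Agent.H62.RG.A_OMG

/-! Part A of the regularity theorem (MP_2697e3_an): output. -/

set_option autoImplicit false

namespace Pool.Agent.H3.RG

open Pool.Agent.H14.RG

theorem aCHN : T_CHN := Pool.Agent.H14.RG.pf_CHN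
theorem aRIN : T_RIN := Pool.Agent.H45.RG.pf_RIN
theorem aTAE : T_TAE := Pool.Agent.H45.RG.pf_TAE
theorem aTAK : T_TAK := Pool.Agent.H82.RG.pf_TAK aRIN
theorem aTPR : T_TPR := Pool.Agent.H45.RG.pf_TPR aTAE aRIN aTAK
theorem aCUT : T_CUT := Pool.Agent.H95.RG.pf_CUT
theorem aSFS : T_SFS := Pool.Agent.H66.RG.pf_SFS aTAE aRIN aTAK aCUT
theorem aZER : T_ZER := Pool.Agent.H75.RG.pf_ZER aCHN
theorem aTNG : T_TNG := Pool.Agent.H36.RG.pf_TNG aTAK aCUT aZER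
theorem aOMG : T_OMG := Pool.Agent.H62.RG.pf_OMG aTPR aTNG

end Pool.Agent.H3.RG
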