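import Pool.Agent.H3.RG.OutX
import Pool.Agent.H39.RG.MIN30
import Pool.Agent.H65.RG.WWP
import Pool.Agent.H65.RG.SCL

/-! The regularity theorem for small energy (MP_2697e3_an), without hypotheses. -/

set_option autoImplicit false

namespace Pool.Agent.H3.RG

theorem out_EPS : Pool.Agent.H90.RG.T_EPS :=
  xEPS Pool.Agent.H39.RG.pf_MIN30 Pool.Agent.H65.RG.pf_WWP Pool.Agent.H65.RG.pf_SCL

/-- OUTPUT of the parts A to G: the theorem from the bound for maps with a regular set. -/
theorem out_THE : Pool.Agent.H90.RG.T_THE :=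
  xTHE Pool.Agent.H39.RG.pf_MIN30 Pool.Agent.H65.RG.pf_WWP Pool.Agent.H65.RG.pf_SCL

end Pool.Agent.H3.RG
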