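import Pool.Agent.H76.RG.CF0
import Pool.Agent.H50.RG.DE1
import Pool.Agent.H84.RG.DE2
import Pool.Agent.H29.RG.DEC
import Pool.Agent.H69.RG.DUA
import Pool.Agent.H94.RG.EXT
import Pool.Agent.H46.RG.GEQ
import Pool.Agent.H79.RG.HLM
import Pool.Agent.H53.RG.IBG
import Pool.Agent.H50.RG.ITE
import Pool.Agent.H53.RG.LEI
import Pool.Agent.H69.RG.LPI
import Pool.Agent.H11.RG.MLS
import Pool.Agent.H48.RG.MOB
import Pool.Agent.H36.RG.POB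
import Pool.Agent.H94.RG.APX
import Pool.Agent.H94.RG.POI
import Pool.Agent.H44.RG.POT
import Pool.Agent.H67.RG.SMW
import Pool.Agent.H1.RG.SRS
import Pool.Agent.H51.RG.TSE
import Pool.Agent.H75.RG.UNI
import Pool.Agent.H86.RG.KER
import Pool.Agent.H34.RG6.DIL
import Pool.Agent.H97.RG6.DCV

/-! Part D of the regularity theorem (MP_2697e3_an): output. -/

set_option autoImplicit false

namespace Pool.Agent.H3.RG

open Pool.Agent.H48.RG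

theorem dSMW : T_SMW := Pool.Agent.H67.RG.pf_SMW
theorem dEXT : T_EXT := Pool.Agent.H94.RG.pf_EXT
theorem dTSE : T_TSE := Pool.Agent.H51.RG.TSE.pf_TSE Pool.Agent.H11.RG.pf_MLS
theorem dLEI : T_LEI := Pool.Agent.H53.RG.pf_LEI dSMW dEXT dTSE
theorem dUNI : T_UNI := Pool.Agent.H75.RG.pf_UNI
theorem dIBG : T_IBG := Pool.Agent.H53.RG.pf_IBG dEXT dLEI dTSE
theorem dPOI : T_POI := Pool.Agent.H94.RG.pf_POI Pool.Agent.H94.RG.pf_APX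
theorem dMOB : T_MOB := pf_MOB dSMW dEXT dPOI
theorem dPOB : T_POB := Pool.Agent.H36.RG.pf_POB dSMW dEXT dPOI
theorem dPOT : T_POT := Pool.Agent.H44.RG.pf_POT Pool.Agent.H86.RG.pf_KER
  Pool.Agent.H34.RG6.pf_DIL (Pool.Agent.H97.RG6.pf_DCV Pool.Agent.H34.RG6.pf_DIL)
theorem dHLM : T_HLM := Pool.Agent.H79.RG.pf_HLM dPOT Pool.Agent.H69.RG.pf_LPI
theorem dGEQ (hWWP : T_WWP) : T_GEQ := Pool.Agent.H46.RG.pf_GEQ dTSE dLEI dEXT dUNI hWWP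
theorem dDE1 (hTRI : T_TRI) (hWWP : T_WWP) : T_DE1 :=
  Pool.Agent.H50.RG.pf_DE1 Pool.Agent.H76.RG.pf_CF0 hTRI dMOB dEXT dLEI dIBG (dGEQ hWWP) hWWP
theorem dDE2 (hTRI : T_TRI) (hWWP : T_WWP) : T_DE2 :=
  Pool.Agent.H84.RG.pf_DE2 Pool.Agent.H76.RG.pf_CF0 hTRI dMOB dPOB dEXT dLEI dIBG hWWP
theorem dDEC (hGAU : T_GAU) (hTRI : T_TRI) (hWWP : T_WWP) : T_DEC :=
  Pool.Agent.H29.RG.pf_DEC hGAU hWWP dHLM (dDE1 hTRI hWWP) (dDE2 hTRI hWWP)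
    Pool.Agent.H69.RG.pf_DUA
theorem dSRS : T_SRS := Pool.Agent.H1.RG.pf_SRS
theorem dITE (hSCL : T_SCL) : T_ITE := Pool.Agent.H50.RG.pf_ITE dSRS hSCL

end Pool.Agent.H3.RG
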