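import Pool.Agent.H86.RG.KER
import Pool.Agent.H34.RG6.DIL
import Pool.Agent.H97.RG6.DCV
import Pool.Agent.H76.RG6.TRC
import Pool.Agent.H13.RG6.REP
import Pool.Agent.H43.RG6.E6RPG
import Pool.Agent.H43.RG6.E6LM
import Pool.Agent.H82.RG6.INT
import Pool.Agent.H95.RG6.E6SM0
import Pool.Agent.H43.RG6.E6SM1
import Pool.Agent.H59.RG6.MOR
import Pool.Agent.H59.RG6.CAC
import Pool.Agent.H82.RG6.CG2
import Pool.Agent.H4.RG6.CG1
import Pool.Agent.H68.RG6.CTF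
import Pool.Agent.H25.RG6.D1
import Pool.Agent.H12.RG6.P1
import Pool.Agent.H86.RG6.KEX
import Pool.Agent.H1.RG6.E
import Pool.Agent.H38.RG.EHLO
import Pool.Agent.H96.RG.EHMO
import Pool.Agent.H79.RG.HAL
import Pool.Agent.H96.RG.EHBI
import Pool.Agent.H66.RG.EHCD
import Pool.Agent.H96.RG.EHCO
import Pool.Agent.H38.RG.EIBP
import Pool.Agent.H33.RG.ECVD
import Pool.Agent.H89.RG.ECVL
import Pool.Agent.H51.RG.SER
import Pool.Agent.H70.RG.HBK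
import Pool.Agent.H74.RG.RPF
import Pool.Agent.H82.RG.SCH
import Pool.Agent.H29.RG.BOO
import Pool.Agent.H96.RG.ESYS

/-! Part E of the regularity theorem (MP_2697e3_an): output. -/

set_option autoImplicit false

namespace Pool.Agent.H3.RG

open Pool.Agent.H86.RG

theorem eKER : T_KER := pf_KER
theorem eDIL : T_DIL := Pool.Agent.H34.RG6.pf_DIL
theorem eDCV : T_DCV := Pool.Agent.H97.RG6.pf_DCV eDIL
theorem eTRC : T_TRC := Pool.Agent.H76.RG6.pf_TRC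
theorem eREP : T_REP := Pool.Agent.H13.RG6.pf_REP eDIL
theorem eRPG : T_RPG := Pool.Agent.H43.RG6.pf_RPG eDIL
theorem eLM : T_LM := Pool.Agent.H43.RG6.pf_LM eDIL
theorem eINT : T_INT := Pool.Agent.H82.RG6.pf_INT
theorem eSM0 : T_SM0 := Pool.Agent.H95.RG6.pf_SM0 eINT

theorem fHLO : Pool.Agent.H70.RG.T_HLO := Pool.Agent.H38.RG.pf_HLO
theorem fHMO : Pool.Agent.H70.RG.T_HMO := Pool.Agent.H96.RG.pf_HMO fHLO
theorem fHAL : Pool.Agent.H70.RG.T_HAL := Pool.Agent.H79.RG.pf_HAL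
theorem fHBI : Pool.Agent.H70.RG.T_HBI := Pool.Agent.H96.RG.pf_HBI fHLO fHMO fHAL
theorem fHCD : Pool.Agent.H70.RG.T_HCD := Pool.Agent.H66.RG.pf_HCD fHLO fHMO
theorem fHCO : Pool.Agent.H70.RG.T_HCO := Pool.Agent.H96.RG.pf_HCO fHLO fHMO fHBI
theorem fIBP : Pool.Agent.H70.RG.T_IBP := Pool.Agent.H38.RG.pf_IBP
theorem fCVL : Pool.Agent.H70.RG.T_CVL := Pool.Agent.H89.RG.pf_CVL Pool.Agent.H33.RG.pf_CVD
theorem fSER : Pool.Agent.H70.RG.T_SER := Pool.Agent.H51.RG.pf_SER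
theorem fHBK : Pool.Agent.H70.RG.T_HBK := Pool.Agent.H70.RG.pf_HBK fCVL
theorem fRPF : Pool.Agent.H70.RG.T_RPF := Pool.Agent.H74.RG.pf_RPF fCVL
theorem fKEX : Pool.Agent.H70.RG.T_KEX := Pool.Agent.H86.RG6.pf_KEX eKER
theorem fSCH : Pool.Agent.H70.RG.T_SCH :=
  Pool.Agent.H82.RG.pf_SCH fHLO fHMO fHAL fHCD fCVL fSER fHBK fRPF fKEX
theorem fBOO : Pool.Agent.H70.RG.T_BOO := Pool.Agent.H29.RG.pf_BOO fHMO fSCH fIBP
theorem fSYS : Pool.Agent.H70.RG.T_SYS :=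
  Pool.Agent.H96.RG.pf_SYS fHLO fHMO fHAL fHBI fHCO fHCD fIBP fBOO

theorem eSM1 : T_SM1 := Pool.Agent.H43.RG6.pf_SM1 eINT fSER fHLO
theorem eMOR : T_MOR := Pool.Agent.H59.RG6.pf_MOR eKER eDIL eDCV eTRC eRPG eLM eSM0
theorem eP1 : T_P1 :=
  Pool.Agent.H12.RG6.pf_P1 eKER eDIL eDCV eTRC eREP eLM eSM1 fHLO fHAL fHCD
theorem eCG1 : Pool.Agent.H82.RG6.T_CG1 := Pool.Agent.H4.RG6.pf_CG1p eDIL
theorem eCG2 : T_CG2 := Pool.Agent.H82.RG6.pf_CG2 eKER eDIL eLM eCG1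
theorem eCAC : T_CAC := Pool.Agent.H59.RG6.pf_CAC Pool.Agent.H68.RG6.pf_CTF eCG2
theorem eD1 : T_D1 := Pool.Agent.H25.RG6.pf_D1 eMOR eCAC eP1 fHAL fHLO fHMO fIBP
theorem eE : T_E := Pool.Agent.H1.RG6.pf_E eD1 fHLO fHMO fSYS

end Pool.Agent.H3.RG
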