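import Pool.Agent.H1.RG.CNA
import Pool.Agent.H51.RG.CNM
import Pool.Agent.H63.RG.FCNF
import Pool.Agent.H67.RG.FCNT
import Pool.Agent.H67.RG.FDML
import Pool.Agent.H75.RG.FDUW
import Pool.Agent.H75.RG.FDUE
import Pool.Agent.H35.RG.FDUS
import Pool.Agent.H10.RG.DUM
import Pool.Agent.H7.REG.DUH
import Pool.Agent.H45.RG.FLTG
import Pool.Agent.H97.RG.ZCV
import Pool.Agent.H86.RGF.ZSH
import Pool.Agent.H45.RG.GZHB
import Pool.Agent.H86.RGF.DIM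
import Pool.Agent.H21.RG.GLU
import Pool.Agent.H21.RG.SHE
import Pool.Agent.H73.RG.MNS
import Pool.Agent.H40.RG.GPRG
import Pool.Agent.H42.RG.FN3
import Pool.Agent.H66.RG.GFNA
import Pool.Agent.H16.RG.THE
import Pool.Agent.H95.AN.MUF
import Pool.Agent.H1.AN.PMNT

/-! Parts F and G of the regularity theorem (MP_2697e3_an): output. -/

set_option autoImplicit false

namespace Pool.Agent.H3.RG.F

open Pool.Agent.H90.RG

theorem fCNA : T_CNA := Pool.Agent.H1.RG.pf_CNA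
theorem fCNM : T_CNM := Pool.Agent.H51.RG.CNM.pf_CNM fCNA
theorem fCNF : T_CNF := Pool.Agent.H63.RG.pf_CNF fCNA fCNM
theorem fCNT : T_CNT := Pool.Agent.H67.RG.pf_CNT fCNA
theorem fDML : T_DML := Pool.Agent.H67.RG.pf_DML fCNA fCNM fCNF
theorem fDUW : T_DUW := Pool.Agent.H75.RG.pf_DUW fCNA fCNF fCNT fDML
theorem fDUE : T_DUE := Pool.Agent.H75.RG.pf_DUE fCNA fCNF fCNT fDML
theorem fDUS : T_DUS := Pool.Agent.H35.RG.pf_DUS fCNA fCNF fCNT fDML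
theorem fDUM : T_DUM := Pool.Agent.H10.RG.pf_DUM fDML fDUW fDUE fDUS
theorem fDUH : T_DUH := Pool.Agent.H7.REG.pf_DUH fCNA fCNF fDML
theorem fLTG : T_LTG := Pool.Agent.H45.RG.pf_LTG
theorem fZCV : T_ZCV := Pool.Agent.H97.RG.pf_ZCV
theorem fZSH : T_ZSH := Pool.Agent.H86.RGF.pf_ZSH fZCV
theorem fZHB : T_ZHB := Pool.Agent.H45.RG.pf_ZHB fZCV
theorem fDIM : T_DIM := Pool.Agent.H86.RGF.pf_DIM fDUM fDML fZSH fZHB fDUH fLTG
theorem fGLU : T_GLU := Pool.Agent.H21.RG.pf_GLU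
theorem fSHE : T_SHE := Pool.Agent.H21.RG.pf_SHE
theorem fPRG : T_PRG := Pool.Agent.H40.RG.pf_PRG fZSH fGLU fZCV
theorem fFN3 : T_FN3 := Pool.Agent.H42.RG.pf_FN3 fPRG fSHE
theorem fFNA : T_FNA := Pool.Agent.H66.RG.pf_FNA fDIM fFN3
theorem fMNS : T_MNS := Pool.Agent.H73.RG.pf_MNS Pool.Agent.H95.AN.pf_MUF Pool.Agent.H1.AN.pf_MNT

end Pool.Agent.H3.RG.F
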