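import Pool.Agent.H3.RG.OutA
import Pool.Agent.H3.RG.OutD
import Pool.Agent.H3.RG.OutE
import Pool.Agent.H3.RG.OutF
import Pool.Agent.H3.RG.EPS
import Pool.Agent.H25.TRI.Out
import Pool.Agent.H39.RG.Bridge
import Pool.Agent.H45.SN.ST1

/-! The regularity theorem for small energy (MP_2697e3_an): the parts put together, from the
remaining rows. -/

set_option autoImplicit false

namespace Pool.Agent.H3.RG

open Pool.Agent.H48.RG

theorem xGAU (hMIN : Pool.Agent.H30.RG.T_MIN) : T_GAU :=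
  Pool.Agent.H39.RG.pf_GAU' hMIN dSMW dLEI dUNI

theorem xDEC (hMIN : Pool.Agent.H30.RG.T_MIN) (hWWP : T_WWP) : T_DEC :=
  dDEC (xGAU hMIN) Pool.Agent.H25.TRI.out_TRI hWWP

theorem xEPS (hMIN : Pool.Agent.H30.RG.T_MIN) (hWWP : T_WWP) (hSCL : T_DEC → T_SCL) :
    Pool.Agent.H90.RG.T_EPS :=
  pf_EPS aOMG aTNG aSFS dSRS (dITE (hSCL (xDEC hMIN hWWP))) Pool.Agent.H45.SN.pf_ST1 F.fMNS eE

theorem xTHE (hMIN : Pool.Agent.H30.RG.T_MIN) (hWWP : T_WWP) (hSCL : T_DEC → T_SCL) :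
    Pool.Agent.H90.RG.T_THE :=
  Pool.Agent.H16.RG.pf_THE (xEPS hMIN hWWP hSCL) F.fFNA

end Pool.Agent.H3.RG
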