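import Pool.Agent.H3.RG.OutA
import Pool.Agent.H87.SN.Stmt

/-! Every closed submanifold has a second fundamental form in the sense of the definitions of
MP_2697e3_an. -/

set_option autoImplicit false

namespace Pool.Agent.H3.RG

open MeasureTheory Metric Set Filter Topology Pool.Agent.H14.RG Pool.Agent.H87.SN
open scoped ContDiff RealInnerProductSpace

noncomputable section

/-- the second fundamental form in terms of the defining function -/
def locB {m c : ℕ} (R : E m → E c →L[ℝ] E m) (F : E m → E c) (q : E m) :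
    E m →L[ℝ] E m →L[ℝ] E m :=
  (ContinuousLinearMap.compL ℝ (E m) (E c) (E m) (R q)).comp (fderiv ℝ (fderiv ℝ F) q)

theorem locB_apply {m c : ℕ} (R : E m → E c →L[ℝ] E m) (F : E m → E c) (q v w : E m) :
    locB R F q v w = R q (fderiv ℝ (fderiv ℝ F) q v w) := rfl

theorem locB_symm {m c : ℕ} {N U : Set (E m)} {F : E m → E c} (hL : LocDef N U F)
    (R : E m → E c →L[ℝ] E m) {q : E m} (hq : q ∈ U) (v w : E m) :
    locB R F q v w = locB R F q w v := by
  rw [locB_apply, locB_apply]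
  congr 1
  have h1 : ContDiffAt ℝ ∞ F q := (hL.smooth q hq).contDiffAt (hL.isOpen.mem_nhds hq)
  have h2 : IsSymmSndFDerivAt ℝ F q := by
    refine h1.isSymmSndFDerivAt ?_
    rw [minSmoothness_of_isRCLikeNormedField]
    exact WithTop.coe_le_coe.2 le_top
  exact h2.eq v w

theorem tan_iff {m c : ℕ} {N U : Set (E m)} {F : E m → E c} (hL : LocDef N U F) {q : E m}
    (hqN : q ∈ N) (hqU : q ∈ U) (v : E m) : IsTangent N q v ↔ fderiv ℝ F q v = 0 :=
  ⟨aTAE m c N U F hL q hqU v, aTAK m c N U F hL q hqN hqU v⟩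

theorem locB_diag {m c c' : ℕ} {N U U' : Set (E m)} {F : E m → E c} {F' : E m → E c'}
    (hL : LocDef N U F) (hL' : LocDef N U' F') {R : E m → E c →L[ℝ] E m}
    {R' : E m → E c' →L[ℝ] E m}
    (hR : ∀ q ∈ U, (∀ y, fderiv ℝ F q (R q y) = y) ∧
        ∀ y v, fderiv ℝ F q v = 0 → ⟪R q y, v⟫ = 0)
    (hR' : ∀ q ∈ U', (∀ y, fderiv ℝ F' q (R' q y) = y) ∧
        ∀ y v, fderiv ℝ F' q v = 0 → ⟪R' q y, v⟫ = 0)
    {q : E m} (hqN : q ∈ N) (hqU : q ∈ U) (hqU' : q ∈ U') {v : E m} (hv : IsTangent N q v) :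
    locB R F q v v = locB R' F' q v v := by
  obtain ⟨γ, h1, h2, h3, h4⟩ := hv
  have s1 := Pool.Agent.H66.RG.sfs_second hL h1 h2 (by rw [h3]; exact hqU)
  have s2 := Pool.Agent.H66.RG.sfs_second hL' h1 h2 (by rw [h3]; exact hqU')
  rw [h3, h4] at s1 s2
  obtain ⟨r1, r2⟩ := hR q hqU
  obtain ⟨r1', r2'⟩ := hR' q hqU'
  set X := deriv (deriv γ) 0 with hX
  have t1 : IsTangent N q (X + locB R F q v v) := by
    rw [tan_iff hL hqN hqU, map_add, locB_apply, r1, add_comm]
    exact s1
  have t2 : IsTangent N q (X + locB R' F' q v v) := by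
    rw [tan_iff hL' hqN hqU', map_add, locB_apply, r1', add_comm]
    exact s2
  have t3 : IsTangent N q (locB R F q v v - locB R' F' q v v) := by
    rw [tan_iff hL hqN hqU] at t1 t2 ⊢
    have e : locB R F q v v - locB R' F' q v v =
      (X + locB R F q v v) - (X + locB R' F' q v v) := by abel
    rw [e, map_sub, t1, t2, sub_zero]
  have n1 := r2 (fderiv ℝ (fderiv ℝ F) q v v) _ ((tan_iff hL hqN hqU _).1 t3)
  have n2 := r2' (fderiv ℝ (fderiv ℝ F') q v v) _ ((tan_iff hL' hqN hqU' _).1 t3)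
  rw [← locB_apply] at n1 n2
  have n3 : ⟪locB R F q v v - locB R' F' q v v, locB R F q v v - locB R' F' q v v⟫ = 0 := by
    rw [inner_sub_left, n1, n2, sub_zero]
  exact sub_eq_zero.1 (inner_self_eq_zero.1 n3)

theorem locB_eq {m c c' : ℕ} {N U U' : Set (E m)} {F : E m → E c} {F' : E m → E c'}
    (hL : LocDef N U F) (hL' : LocDef N U' F') {R : E m → E c →L[ℝ] E m}
    {R' : E m → E c' →L[ℝ] E m}
    (hR : ∀ q ∈ U, (∀ y, fderiv ℝ F q (R q y) = y) ∧
        ∀ y v, fderiv ℝ F q v = 0 → ⟪R q y, v⟫ = 0)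
    (hR' : ∀ q ∈ U', (∀ y, fderiv ℝ F' q (R' q y) = y) ∧
        ∀ y v, fderiv ℝ F' q v = 0 → ⟪R' q y, v⟫ = 0)
    {q : E m} (hqN : q ∈ N) (hqU : q ∈ U) (hqU' : q ∈ U') {v w : E m} (hv : IsTangent N q v)
    (hw : IsTangent N q w) : locB R F q v w = locB R' F' q v w := by
  have hvw : IsTangent N q (v + w) := by
    rw [tan_iff hL hqN hqU] at hv hw ⊢
    rw [map_add, hv, hw, add_zero]
  have d1 := locB_diag hL hL' hR hR' hqN hqU hqU' hv
  have d2 := locB_diag hL hL' hR hR' hqN hqU hqU' hw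
  have d3 := locB_diag hL hL' hR hR' hqN hqU hqU' hvw
  have y1 := locB_symm hL R hqU v w
  have y2 := locB_symm hL' R' hqU' v w
  have e1 : locB R F q (v + w) (v + w) =
      locB R F q v v + (2 : ℝ) • locB R F q v w + locB R F q w w := by
    rw [map_add, map_add, _root_.add_apply, _root_.add_apply, ← y1,
      two_smul]
    abel
  have e2 : locB R' F' q (v + w) (v + w) =
      locB R' F' q v v + (2 : ℝ) • locB R' F' q v w + locB R' F' q w w := by
    rw [map_add, map_add, _root_.add_apply, _root_.add_apply, ← y2,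
      two_smul]
    abel
  rw [e1, e2, d1, d2] at d3
  have d4 := add_left_cancel (add_right_cancel d3)
  exact smul_right_injective _ (two_ne_zero' ℝ) d4

/-- Every closed submanifold has a second fundamental form. -/
theorem exists_second {m k : ℕ} {N : Set (E m)} (hN : IsClosedSubmanifold k N) :
    ∃ A : E m → Bil m, IsSecond N A := by
  obtain ⟨T, hT⟩ := aTPR m k N hN
  choose c U F _ hpU hL using hN.loc
  choose R hRs hR using fun p (hp : p ∈ N) =>
    aRIN m (c p hp) (U p hp) (F p hp) (hL p hp).isOpen (hL p hp).smooth (hL p hp).surj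
  classical
  let A : E m → Bil m := fun q =>
    if h : q ∈ N then (locB (R q h) (F q h) q).bilinearComp (T q) (T q) else 0
  have hA : ∀ (q : E m) (h : q ∈ N) (v w : E m),
      A q v w = locB (R q h) (F q h) q (T q v) (T q w) := by
    intro q h v w
    simp only [A, dif_pos h]
    rfl
  refine ⟨A, fun v w => ?_, fun q hq v w hv hw τ hτ => ?_, fun γ h1 h2 ν hν => ?_⟩
  · intro p hp
    have hF1 : ContDiffOn ℝ ∞ (fderiv ℝ (F p hp)) (U p hp) :=
      (hL p hp).smooth.fderiv_of_isOpen (hL p hp).isOpen (by simp)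
    have hF2 : ContDiffOn ℝ ∞ (fderiv ℝ (fderiv ℝ (F p hp))) (U p hp) :=
      hF1.fderiv_of_isOpen (hL p hp).isOpen (by simp)
    have hB : ContDiffOn ℝ ∞ (locB (R p hp) (F p hp)) (U p hp) := by
      refine ContDiffOn.clm_comp ?_ hF2
      exact contDiffOn_const.clm_apply (hRs p hp)
    have hUn : U p hp ∈ 𝓝 p := (hL p hp).isOpen.mem_nhds (hpU p hp)
    have hBc : ContinuousWithinAt (locB (R p hp) (F p hp)) N p :=
      (hB.continuousOn.continuousAt hUn).continuousWithinAt
    have hTv : ContinuousWithinAt (fun q => T q v) N p := (hT.cont p hp).clm_apply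
      continuousWithinAt_const
    have hTw : ContinuousWithinAt (fun q => T q w) N p := (hT.cont p hp).clm_apply
      continuousWithinAt_const
    have hc : ContinuousWithinAt (fun q => locB (R p hp) (F p hp) q (T q v) (T q w)) N p :=
      (hBc.clm_apply hTv).clm_apply hTw
    refine hc.congr_of_eventuallyEq ?_ ?_
    · filter_upwards [self_mem_nhdsWithin, mem_nhdsWithin_of_mem_nhds hUn] with q hqN hqU
      change A q v w = _
      rw [hA q hqN v w]
      exact locB_eq (hL q hqN) (hL p hp) (hR q hqN) (hR p hp) hqN (hpU q hqN) hqU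
        (hT.mem q hqN v) (hT.mem q hqN w)
    · change A p v w = _
      rw [hA p hp v w]
  · change ⟪A q v w, τ⟫ = 0
    rw [hA q hq v w, locB_apply]
    exact (hR q hq q (hpU q hq)).2 _ τ ((tan_iff (hL q hq) hq (hpU q hq) τ).1 hτ)
  · have hq : γ 0 ∈ N := h2.self_of_nhds
    have hv : IsTangent N (γ 0) (deriv γ 0) := ⟨γ, h1, h2, rfl, rfl⟩
    change ⟪deriv (deriv γ) 0 + A (γ 0) (deriv γ 0) (deriv γ 0), ν⟫ = 0
    rw [hA _ hq, hT.fix _ hq _ hv, real_inner_comm]
    refine hν _ ?_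
    have s1 := Pool.Agent.H66.RG.sfs_second (hL _ hq) h1 h2 (hpU _ hq)
    rw [tan_iff (hL _ hq) hq (hpU _ hq), map_add, locB_apply, (hR _ hq _ (hpU _ hq)).1, add_comm]
    exact s1

end

end Pool.Agent.H3.RG
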