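import Pool.Agent.H25.TRI.Targets
import Pool.Agent.H48.RG.Defs

/-! The trilinear estimate in the form of part D (MP_2697e3_an, part C to part D). -/

set_option autoImplicit false

namespace Pool.Agent.H3.RG

open MeasureTheory Metric Set Filter Topology Pool.Agent.H87.SN
open scoped ContDiff RealInnerProductSpace ENNReal

noncomputable section

variable {n : ℕ}

theorem inner_eq_sum (a b : E n) : ⟪a, b⟫ = ∑ i, a i * b i := by
  simp [PiLp.inner_apply, mul_comm]

theorem memLp_coord {G : E n → E n} {p : ℝ≥0∞} {μ : Measure (E n)} (hG : MemLp G p μ) (i : Fin n) :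
    MemLp (fun x => G x i) p μ :=
  (EuclideanSpace.proj (𝕜 := ℝ) i).comp_memLp' hG

/-- a field in `L²` which vanishes off a ball is integrable -/
theorem integrable_of_memLp_ball {F : Type*} [NormedAddCommGroup F] {G : E n → F}
    (hG : MemLp G 2 volume) (h0 : ∀ x, x ∉ closedBall (0 : E n) 1 → G x = 0) : Integrable G := by
  rw [← integrableOn_iff_integrable_of_support_subset (s := closedBall (0 : E n) 1)]
  · have : IsFiniteMeasure (volume.restrict (closedBall (0 : E n) 1)) :=
      ⟨by rw [Measure.restrict_apply_univ]; exact measure_closedBall_lt_top⟩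
    exact (hG.mono_measure Measure.restrict_le_self).integrable one_le_two
  · intro x hx
    by_contra h
    exact hx (h0 x h)

theorem cpt_of_off {F : Type*} [Zero F] [TopologicalSpace F] {G : E n → F}
    (h0 : ∀ x, x ∉ closedBall (0 : E n) 1 → G x = 0) : HasCompactSupport G :=
  HasCompactSupport.intro (isCompact_closedBall _ _) (fun x hx => h0 x hx)

theorem sqrt_coord_le {G : E n → E n} (hG : MemLp G 2 volume) :
    ∑ i, Real.sqrt (∫ x, (G x i) ^ 2) ≤ n * Real.sqrt (∫ x, ‖G x‖ ^ 2) := by
  have h : ∀ i ∈ (Finset.univ : Finset (Fin n)), Real.sqrt (∫ x, (G x i) ^ 2) ≤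
      Real.sqrt (∫ x, ‖G x‖ ^ 2) := by
    intro i _
    refine Real.sqrt_le_sqrt ?_
    refine integral_mono_of_nonneg (Eventually.of_forall fun x => sq_nonneg _) ?_
      (Eventually.of_forall fun x => ?_)
    · exact MemLp.integrable_norm_pow (p := 2) (by exact_mod_cast hG) (by norm_num)
    · have := PiLp.norm_apply_le (G x) i
      simp only []
      rw [← sq_abs]
      exact pow_le_pow_left₀ (abs_nonneg _) this 2
  refine (Finset.sum_le_sum h).trans (le_of_eq ?_)
  simp

/-- TRB: the trilinear estimate in the form of part D. -/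
theorem pf_TRB (h : Pool.Agent.H25.TRI.T_TRI) : Pool.Agent.H48.RG.T_TRI := by
  intro n hn
  obtain ⟨C, hC, hT⟩ := h n hn
  refine ⟨C * n * n, by positivity, ?_⟩
  intro b g Db G Dg M hM hb hMor hG hG0 hDF hg
  have hbms : AEStronglyMeasurable b := by simpa using hb.wb.ms
  have hDb2 : MemLp Db 2 volume := by simpa using hb.wb.d2
  have hDg2 : MemLp Dg 2 volume := by simpa using hg.wb.d2
  have hgms : AEStronglyMeasurable g := by simpa using hg.wb.ms
  obtain ⟨K, hK⟩ := hb.wb.bd
  rw [Measure.restrict_univ] at hK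
  obtain ⟨K', hK'⟩ := hg.wb.bd
  rw [Measure.restrict_univ] at hK'
  have hDb0 : ∀ x, x ∉ closedBall (0 : E n) 1 → Db x = 0 := fun x hx => (hb.off x hx).2
  have hDg0 : ∀ x, x ∉ closedBall (0 : E n) 1 → Dg x = 0 := fun x hx => (hg.off x hx).2
  have hDbi : Integrable Db := integrable_of_memLp_ball hDb2 hDb0
  have hwg : ∀ (f : E n → ℝ) (D : E n → E n), Pool.Agent.H48.RG.WG univ f D →
      Pool.Agent.H25.TRI.WG f (fun i x => D x i) := by
    intro f D hw φ hφ i
    have e := hw φ ⟨hφ.1, hφ.2, subset_univ _⟩ (bv i)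
    have e1 : ∀ x, ⟪D x, (bv i : E n)⟫ = D x i := fun x => by simp [bv, PiLp.inner_apply]
    simp only [e1] at e
    simp only [Pool.Agent.H25.TRI.pd]
    rw [show (fun x => D x i * φ x) = fun x => φ x * D x i from funext fun x => mul_comm _ _,
      show (fun x => f x * fderiv ℝ φ x (bv i)) = fun x => fderiv ℝ φ x (bv i) * f x from
        funext fun x => mul_comm _ _]
    exact e
  have key := hT b g (fun i x => Db x i) (fun i x => G x i) (fun i x => Dg x i) M K hM hbms hK
    (cpt_of_off fun x hx => (hb.off x hx).1)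
    (fun i => (EuclideanSpace.proj (𝕜 := ℝ) i).integrable_comp hDbi) (hwg _ _ hb.wb.wg)
    (fun i y r hr => ?_) (fun i => memLp_coord hG i)
    (fun i => cpt_of_off fun x hx => by simp [hG0 x hx]) (fun φ hφ => ?_) ?_
    (cpt_of_off fun x hx => (hg.off x hx).1) (fun i => memLp_coord hDg2 i) (hwg _ _ hg.wb.wg)
  · simp only [inner_eq_sum]
    refine key.trans ?_
    have h1 := sqrt_coord_le hG
    have h2 := sqrt_coord_le hDg2
    calc C * M * (∑ i, Real.sqrt (∫ x, (G x i) ^ 2)) * (∑ i, Real.sqrt (∫ x, (Dg x i) ^ 2))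
        ≤ C * M * (n * Real.sqrt (∫ x, ‖G x‖ ^ 2)) * (n * Real.sqrt (∫ x, ‖Dg x‖ ^ 2)) := by
          gcongr
      _ = _ := by ring
  · have h1 : ∫⁻ x in ball y r, ‖Db x i‖ₑ ≤ ∫⁻ x in ball y r, ‖Db x‖ₑ := by
      refine lintegral_mono fun x => ?_
      simp only [enorm_eq_nnnorm]
      exact_mod_cast PiLp.norm_apply_le (Db x) i
    refine h1.trans ?_
    rw [← ofReal_integral_norm_eq_lintegral_enorm hDbi.integrableOn]
    exact ENNReal.ofReal_le_ofReal (hMor y r hr (subset_univ _))
  · have e := hDF φ ⟨hφ.1, hφ.2, subset_univ _⟩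
    have hGi : Integrable G := integrable_of_memLp_ball hG hG0
    rw [← integral_finsetSum]
    · rw [← e]
      refine integral_congr_ae (Eventually.of_forall fun x => ?_)
      have : G x = ∑ i, G x i • (bv i : E n) := by
        ext j
        simp [bv, Finset.sum_apply, Pi.single_apply]
      simp only [Pool.Agent.H25.TRI.pd]
      conv_rhs => rw [this]
      simp [map_sum]
    · intro i _
      have hc : Continuous (Pool.Agent.H25.TRI.pd i φ) :=
        (hφ.1.continuous_fderiv (by simp)).clm_apply continuous_const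
      obtain ⟨B, hB⟩ := (hφ.2.fderiv (𝕜 := ℝ)).exists_bound_of_continuous
        (hφ.1.continuous_fderiv (by simp))
      have h1 : Integrable (fun x => G x i) :=
        (EuclideanSpace.proj (𝕜 := ℝ) i).integrable_comp hGi
      have h2 := h1.bdd_mul (c := B) hc.aestronglyMeasurable (Eventually.of_forall fun x => by
        have := (fderiv ℝ φ x).le_opNorm (bv i : E n)
        rw [show ‖(bv i : E n)‖ = 1 by simp [bv], mul_one] at this
        exact this.trans (hB x))
      exact h2.congr (Eventually.of_forall fun x => mul_comm _ _)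
  · -- the function `g` is square integrable
    have h1 : MemLp g 2 (volume.restrict (closedBall (0 : E n) 1)) := by
      have : IsFiniteMeasure (volume.restrict (closedBall (0 : E n) 1)) :=
        ⟨by rw [Measure.restrict_apply_univ]; exact measure_closedBall_lt_top⟩
      exact MemLp.of_bound (hgms.mono_measure Measure.restrict_le_self) K'
        (ae_restrict_of_ae (by simpa using hK'))
    have h2 : (closedBall (0 : E n) 1).indicator g = g := by
      refine indicator_eq_self.2 fun x hx => ?_
      by_contra hc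
      exact hx (hg.off x hc).1
    rw [← h2]
    exact (memLp_indicator_iff_restrict measurableSet_closedBall).2 h1

end

end Pool.Agent.H3.RG
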